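import Pool.Graph.R_seed8.Y262.EG.Def

/-!
Task LF-1 of helper240: local bound of a solution by its `L²` norm (a differential inequality for the
weighted mean values of the square; no Moser iteration).
-/

set_option autoImplicit false

open Set Filter Topology MeasureTheory
open scoped ContDiff

noncomputable section

namespace Pool.Agent.H47.LF

open Pool.Agent.Y262.EG

/-- copy of the statement of helper240 -/
def StSup : Prop :=
  ∀ V : ℝ, 0 ≤ V → ∃ C : ℝ, 0 < C ∧ ∀ (v : ℂ → ℝ) (z : ℂ) (r : ℝ), 0 < r →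
    ContDiffOn ℝ ∞ v (Metric.ball z (2 * r)) →
    (∀ w ∈ Metric.ball z (2 * r), |px (px v) w + py (py v) w| ≤ V / r ^ 2 * |v w|) →
    (v z) ^ 2 ≤ C / r ^ 2 * ∫ w in Metric.ball z r, (v w) ^ 2

/-- the positive part -/
def mp (t : ℝ) : ℝ := max t 0

theorem mp_nonneg (t : ℝ) : 0 ≤ mp t := le_max_right _ _

theorem mp_cont : Continuous mp := continuous_id.max continuous_const

theorem mp_cube (t : ℝ) : HasDerivAt (fun t => mp t ^ 3) (3 * mp t ^ 2) t := by
  rcases lt_trichotomy t 0 with h | h | h
  · have h1 : mp t = 0 := max_eq_right h.le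
    have h2 : (fun t => mp t ^ 3) =ᶠ[𝓝 t] fun _ => (0 : ℝ) := by
      filter_upwards [Iio_mem_nhds h] with s hs
      have h3 : mp s = 0 := max_eq_right (le_of_lt hs)
      rw [h3]
      norm_num
    have h3 : (3 : ℝ) * mp t ^ 2 = 0 := by
      rw [h1]
      norm_num
    rw [h3]
    exact (hasDerivAt_const t (0 : ℝ)).congr_of_eventuallyEq h2
  · subst h
    have h1 : mp 0 = 0 := max_self 0
    have h3 : (3 : ℝ) * mp 0 ^ 2 = 0 := by
      rw [h1]
      norm_num
    rw [h3]
    have h2 : (fun t => mp t ^ 3) =O[𝓝 (0 : ℝ)] fun x => ‖x - 0‖ ^ 3 := by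
      refine Asymptotics.IsBigO.of_bound 1 (Filter.Eventually.of_forall fun x => ?_)
      rw [one_mul, norm_pow, norm_pow, norm_norm, sub_zero]
      refine pow_le_pow_left₀ (norm_nonneg _) ?_ 3
      rw [Real.norm_eq_abs, Real.norm_eq_abs, abs_of_nonneg (mp_nonneg x)]
      exact max_le (le_abs_self x) (abs_nonneg x)
    have h4 := h2.hasFDerivAt (𝕜 := ℝ) (by norm_num)
    rw [hasDerivAt_iff_hasFDerivAt]
    have h5 : ContinuousLinearMap.toSpanSingleton ℝ (0 : ℝ) = 0 := by
      ext
      simp
    rw [h5]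
    exact h4
  · have h1 : mp t = t := max_eq_left h.le
    have h2 : (fun t => mp t ^ 3) =ᶠ[𝓝 t] fun s => s ^ 3 := by
      filter_upwards [Ioi_mem_nhds h] with s hs
      have h3 : mp s = s := max_eq_left (le_of_lt hs)
      rw [h3]
    rw [h1]
    have h3 : HasDerivAt (fun s : ℝ => s ^ 3) (3 * t ^ 2) t := by
      have := hasDerivAt_pow 3 t
      simpa using this
    exact h3.congr_of_eventuallyEq h2

/-- the square of the norm -/
def n2 (w : ℂ) : ℝ := w.re ^ 2 + w.im ^ 2

theorem n2_eq (w : ℂ) : n2 w = ‖w‖ ^ 2 := by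
  rw [Complex.sq_norm, Complex.normSq_apply, n2]
  ring

theorem n2_cont : Continuous n2 :=
  (Complex.continuous_re.pow 2).add (Complex.continuous_im.pow 2)

theorem n2_deriv (w : ℂ) :
    HasFDerivAt n2 ((2 * w.re) • Complex.reCLM + (2 * w.im) • Complex.imCLM) w := by
  have h1 : HasFDerivAt (fun w : ℂ => w.re ^ 2) ((2 * w.re) • Complex.reCLM) w := by
    have h := (Complex.reCLM.hasFDerivAt (x := w)).pow 2
    simpa using h
  have h2 : HasFDerivAt (fun w : ℂ => w.im ^ 2) ((2 * w.im) • Complex.imCLM) w := by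
    have h := (Complex.imCLM.hasFDerivAt (x := w)).pow 2
    simpa using h
  exact h1.add h2

/-- the weight -/
def rho (w : ℂ) : ℝ := mp (1 - n2 w) ^ 2

/-- the potential of the weight -/
def psi (w : ℂ) : ℝ := mp (1 - n2 w) ^ 3 / 6

theorem rho_nonneg (w : ℂ) : 0 ≤ rho w := sq_nonneg _

theorem psi_nonneg (w : ℂ) : 0 ≤ psi w := div_nonneg (pow_nonneg (mp_nonneg _) 3) (by norm_num)

theorem mp_le (w : ℂ) : mp (1 - n2 w) ≤ 1 := by
  refine max_le ?_ zero_le_one
  have : 0 ≤ n2 w := by
    rw [n2_eq]
    positivity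
  linarith

theorem rho_le (w : ℂ) : rho w ≤ 1 := pow_le_one₀ (mp_nonneg _) (mp_le w)

theorem psi_le (w : ℂ) : psi w ≤ rho w / 6 := by
  unfold psi rho
  have h1 := mp_le w
  have h2 := mp_nonneg (1 - n2 w)
  have h3 : mp (1 - n2 w) ^ 3 ≤ mp (1 - n2 w) ^ 2 :=
    pow_le_pow_of_le_one h2 h1 (by norm_num)
  linarith

theorem mp_zero {w : ℂ} (h : 1 ≤ ‖w‖) : mp (1 - n2 w) = 0 := by
  refine max_eq_right ?_
  rw [n2_eq]
  have := one_le_pow₀ h (n := 2)
  linarith

theorem rho_zero {w : ℂ} (h : 1 ≤ ‖w‖) : rho w = 0 := by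
  rw [rho, mp_zero h]
  norm_num

theorem psi_zero {w : ℂ} (h : 1 ≤ ‖w‖) : psi w = 0 := by
  rw [psi, mp_zero h]
  norm_num

theorem rho_cont : Continuous rho := (mp_cont.comp (continuous_const.sub n2_cont)).pow 2

theorem psi_cont : Continuous psi :=
  ((mp_cont.comp (continuous_const.sub n2_cont)).pow 3).div_const 6

theorem rho_supp : HasCompactSupport rho := by
  refine HasCompactSupport.intro (isCompact_closedBall (0 : ℂ) 1) fun w hw => rho_zero ?_
  rw [Metric.mem_closedBall, dist_zero_right, not_le] at hw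
  exact hw.le

theorem psi_supp : HasCompactSupport psi := by
  refine HasCompactSupport.intro (isCompact_closedBall (0 : ℂ) 1) fun w hw => psi_zero ?_
  rw [Metric.mem_closedBall, dist_zero_right, not_le] at hw
  exact hw.le

theorem psi_deriv (w : ℂ) :
    HasFDerivAt psi (-(rho w • (w.re • Complex.reCLM + w.im • Complex.imCLM))) w := by
  have h1 : HasFDerivAt (fun w => 1 - n2 w)
      (-((2 * w.re) • Complex.reCLM + (2 * w.im) • Complex.imCLM)) w :=
    (n2_deriv w).const_sub 1
  have h2 := (mp_cube (1 - n2 w)).comp_hasFDerivAt w h1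
  have h3 := h2.mul_const (6 : ℝ)⁻¹
  have h4 : (fun w => ((fun t => mp t ^ 3) ∘ fun w => 1 - n2 w) w * (6 : ℝ)⁻¹) = psi := by
    funext w
    rw [psi, div_eq_mul_inv]
    rfl
  rw [h4] at h3
  have h5 : (6 : ℝ)⁻¹ • (3 * mp (1 - n2 w) ^ 2) •
      -((2 * w.re) • Complex.reCLM + (2 * w.im) • Complex.imCLM) =
      -(rho w • (w.re • Complex.reCLM + w.im • Complex.imCLM)) := by
    refine ContinuousLinearMap.ext fun a => ?_
    simp [rho]
    ring
  rwa [h5] at h3

theorem psi_fderiv (w a : ℂ) : fderiv ℝ psi w a = -(rho w * (w.re * a.re + w.im * a.im)) := by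
  rw [(psi_deriv w).fderiv]
  simp
  ring

theorem rho_int_pos : 0 < ∫ w, rho w := by
  refine rho_cont.integral_pos_of_hasCompactSupport_nonneg_nonzero rho_supp rho_nonneg (x := 0) ?_
  have h1 : mp (1 - n2 0) = 1 := by
    rw [n2_eq, norm_zero, mp]
    norm_num
  rw [rho, h1]
  norm_num

theorem int_rho {f : ℂ → ℝ} (hf : Continuous f) : Integrable fun w => rho w * f w :=
  (rho_cont.mul hf).integrable_of_hasCompactSupport rho_supp.mul_right

theorem int_psi {f : ℂ → ℝ} (hf : Continuous f) : Integrable fun w => psi w * f w :=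
  (psi_cont.mul hf).integrable_of_hasCompactSupport psi_supp.mul_right

theorem fderiv_split (f : ℂ → ℝ) (w a : ℂ) : fderiv ℝ f w a = a.re * px f w + a.im * py f w := by
  have h1 : a = a.re • (1 : ℂ) + a.im • Complex.I := by
    rw [Complex.real_smul, Complex.real_smul, mul_one]
    exact (Complex.re_add_im a).symm
  have h2 : fderiv ℝ f w a = fderiv ℝ f w (a.re • (1 : ℂ) + a.im • Complex.I) :=
    congrArg (fderiv ℝ f w) h1
  rw [h2, map_add, map_smul, map_smul, smul_eq_mul, smul_eq_mul]
  rfl

section

variable {g : ℂ → ℝ} (hg : ContDiff ℝ ∞ g)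

include hg

theorem px_smooth : ContDiff ℝ ∞ (px g) :=
  (hg.fderiv_right (m := ∞) (by simp)).clm_apply contDiff_const

theorem py_smooth : ContDiff ℝ ∞ (py g) :=
  (hg.fderiv_right (m := ∞) (by simp)).clm_apply contDiff_const

theorem aff_fderiv (z : ℂ) (t : ℝ) (w a : ℂ) :
    fderiv ℝ (fun w => g (z + t • w)) w a = t * fderiv ℝ g (z + t • w) a := by
  have h1 : HasFDerivAt (fun w : ℂ => z + t • w) (t • ContinuousLinearMap.id ℝ ℂ) w :=
    ((hasFDerivAt_id w).const_smul t).const_add z
  have h2 : HasFDerivAt g (fderiv ℝ g (z + t • w)) (z + t • w) :=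
    ((hg.differentiable (by simp)) _).hasFDerivAt
  have h3 : fderiv ℝ (fun w => g (z + t • w)) w =
      (fderiv ℝ g (z + t • w)).comp (t • ContinuousLinearMap.id ℝ ℂ) := (h2.comp w h1).fderiv
  rw [h3]
  simp

/-- the mean value -/
def Am (g : ℂ → ℝ) (z : ℂ) (t : ℝ) : ℝ := ∫ w, rho w * g (z + t • w)

omit hg in
theorem aff_cont (z : ℂ) (t : ℝ) : Continuous fun w : ℂ => z + t • w :=
  continuous_const.add (continuous_const_smul t)

theorem Am_deriv (z : ℂ) (t : ℝ) :
    HasDerivAt (Am g z) (∫ w, rho w * fderiv ℝ g (z + t • w) w) t := by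
  have hgc : Continuous g := hg.continuous
  have hdc : Continuous (fderiv ℝ g) := hg.continuous_fderiv (by simp)
  obtain ⟨B, hB⟩ := (isCompact_closedBall z (|t| + 1)).exists_bound_of_continuousOn
    hdc.continuousOn
  refine (hasDerivAt_integral_of_dominated_loc_of_deriv_le
    (F := fun (t : ℝ) (w : ℂ) => rho w * g (z + t • w))
    (F' := fun (t : ℝ) (w : ℂ) => rho w * fderiv ℝ g (z + t • w) w)
    (bound := fun w => rho w * B) (Metric.ball_mem_nhds t one_pos) ?_ ?_ ?_ ?_ ?_ ?_).2
  · exact Filter.Eventually.of_forall fun s =>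
      (rho_cont.mul (hgc.comp (aff_cont z s))).aestronglyMeasurable
  · exact int_rho (hgc.comp (aff_cont z t))
  · exact (rho_cont.mul ((hdc.comp (aff_cont z t)).clm_apply continuous_id)).aestronglyMeasurable
  · refine Filter.Eventually.of_forall fun w s hs => ?_
    by_cases hw : 1 ≤ ‖w‖
    · rw [rho_zero hw, zero_mul, norm_zero, zero_mul]
    · rw [not_le] at hw
      rw [norm_mul, Real.norm_eq_abs, abs_of_nonneg (rho_nonneg w)]
      refine mul_le_mul_of_nonneg_left ?_ (rho_nonneg w)
      have h1 : z + s • w ∈ Metric.closedBall z (|t| + 1) := by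
        rw [Metric.mem_closedBall, dist_eq_norm, add_sub_cancel_left, norm_smul, Real.norm_eq_abs]
        have h2 : |s| ≤ |t| + 1 := by
          rw [Metric.mem_ball, Real.dist_eq] at hs
          have h3 := abs_sub_abs_le_abs_sub s t
          linarith
        have h3 := abs_nonneg s
        nlinarith [norm_nonneg w]
      have h2 := hB _ h1
      have h3 := (fderiv ℝ g (z + s • w)).le_opNorm w
      have h4 : ‖fderiv ℝ g (z + s • w)‖ * ‖w‖ ≤ ‖fderiv ℝ g (z + s • w)‖ :=
        mul_le_of_le_one_right (norm_nonneg _) hw.le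
      linarith
  · have h1 : (fun w => rho w * B) = fun w => rho w * (fun _ => B) w := rfl
    rw [h1]
    exact int_rho continuous_const
  · refine Filter.Eventually.of_forall fun w s _ => ?_
    have h1 : HasDerivAt (fun s : ℝ => z + s • w) w s := by
      have h := ((hasDerivAt_id s).smul_const w).const_add z
      simpa using h
    have h2 : HasFDerivAt g (fderiv ℝ g (z + s • w)) (z + s • w) :=
      ((hg.differentiable (by simp)) _).hasFDerivAt
    exact (h2.comp_hasDerivAt s h1).const_mul (rho w)

omit hg in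
/-- integration by parts -/
theorem ibp_psi {G : ℂ → ℝ} (hG : ContDiff ℝ ∞ G) (a : ℂ) :
    ∫ w, fderiv ℝ psi w a * G w = -∫ w, psi w * fderiv ℝ G w a := by
  have h1 : Continuous fun w => fderiv ℝ G w a :=
    (hG.continuous_fderiv (by simp)).clm_apply continuous_const
  have h2 : Continuous fun w : ℂ => w.re * a.re + w.im * a.im :=
    (Complex.continuous_re.mul continuous_const).add (Complex.continuous_im.mul continuous_const)
  have h3 := integral_mul_fderiv_eq_neg_fderiv_mul_of_integrable (μ := (volume : Measure ℂ))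
    (f := psi) (g := G) (v := a) ?_ ?_ ?_ (fun x _ => (psi_deriv x).differentiableAt)
    (fun x _ => (hG.differentiable (by simp)) x)
  · rw [h3, neg_neg]
  · have h4 : (fun w => fderiv ℝ psi w a * G w) =
        fun w => rho w * (-((w.re * a.re + w.im * a.im) * G w)) := by
      funext w
      rw [psi_fderiv]
      ring
    rw [h4]
    exact int_rho (h2.mul hG.continuous).neg
  · exact int_psi h1
  · exact int_psi hG.continuous

theorem Am_deriv' (z : ℂ) (t : ℝ) :
    HasDerivAt (Am g z) (t * ∫ w, psi w * (px (px g) (z + t • w) + py (py g) (z + t • w))) t := by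
  have hpx := px_smooth hg
  have hpy := py_smooth hg
  have haff : ContDiff ℝ ∞ fun w : ℂ => z + t • w :=
    contDiff_const.add (contDiff_id.const_smul t)
  have h1 := Am_deriv hg z t
  have h2 : (∫ w, rho w * fderiv ℝ g (z + t • w) w) =
      t * ∫ w, psi w * (px (px g) (z + t • w) + py (py g) (z + t • w)) := by
    have h3 : ∀ w, rho w * fderiv ℝ g (z + t • w) w =
        -(fderiv ℝ psi w 1 * px g (z + t • w)) + -(fderiv ℝ psi w Complex.I * py g (z + t • w)) := by
      intro w
      rw [fderiv_split g, psi_fderiv, psi_fderiv, Complex.one_re, Complex.one_im, Complex.I_re,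
        Complex.I_im]
      ring
    have e1 : Continuous fun w : ℂ => px g (z + t • w) := hpx.continuous.comp (aff_cont z t)
    have e2 : Continuous fun w : ℂ => py g (z + t • w) := hpy.continuous.comp (aff_cont z t)
    have i1 : Integrable fun w => -(fderiv ℝ psi w 1 * px g (z + t • w)) := by
      have h4 : (fun w => -(fderiv ℝ psi w 1 * px g (z + t • w))) =
          fun w => rho w * (w.re * px g (z + t • w)) := by
        funext w
        rw [psi_fderiv, Complex.one_re, Complex.one_im]
        ring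
      rw [h4]
      exact int_rho (Complex.continuous_re.mul e1)
    have i2 : Integrable fun w => -(fderiv ℝ psi w Complex.I * py g (z + t • w)) := by
      have h4 : (fun w => -(fderiv ℝ psi w Complex.I * py g (z + t • w))) =
          fun w => rho w * (w.im * py g (z + t • w)) := by
        funext w
        rw [psi_fderiv, Complex.I_re, Complex.I_im]
        ring
      rw [h4]
      exact int_rho (Complex.continuous_im.mul e2)
    have q1 : ∫ w, fderiv ℝ psi w 1 * px g (z + t • w) =
        -∫ w, psi w * (t * px (px g) (z + t • w)) := by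
      have h4 := ibp_psi (G := fun w => px g (z + t • w)) (hpx.comp haff) 1
      rw [h4]
      congr 1
      refine integral_congr_ae (Filter.Eventually.of_forall fun w => ?_)
      beta_reduce
      rw [aff_fderiv hpx z t w 1]
      rfl
    have q2 : ∫ w, fderiv ℝ psi w Complex.I * py g (z + t • w) =
        -∫ w, psi w * (t * py (py g) (z + t • w)) := by
      have h4 := ibp_psi (G := fun w => py g (z + t • w)) (hpy.comp haff) Complex.I
      rw [h4]
      congr 1
      refine integral_congr_ae (Filter.Eventually.of_forall fun w => ?_)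
      beta_reduce
      rw [aff_fderiv hpy z t w Complex.I]
      rfl
    simp only [h3]
    rw [integral_add i1 i2, integral_neg, integral_neg, q1, q2, neg_neg, neg_neg]
    have c1 : Continuous fun w : ℂ => px (px g) (z + t • w) :=
      (px_smooth hpx).continuous.comp (aff_cont z t)
    have c2 : Continuous fun w : ℂ => py (py g) (z + t • w) :=
      (py_smooth hpy).continuous.comp (aff_cont z t)
    have j1 : Integrable fun w => psi w * (t * px (px g) (z + t • w)) :=
      int_psi (continuous_const.mul c1)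
    have j2 : Integrable fun w => psi w * (t * py (py g) (z + t • w)) :=
      int_psi (continuous_const.mul c2)
    rw [← integral_add j1 j2, ← integral_const_mul]
    refine integral_congr_ae (Filter.Eventually.of_forall fun w => ?_)
    beta_reduce
    ring
  rwa [h2] at h1

end

/-- the Laplacian of the square -/
theorem lap_sq {u : ℂ → ℝ} (hu : ContDiff ℝ ∞ u) (w : ℂ) :
    px (px fun w => u w ^ 2) w + py (py fun w => u w ^ 2) w =
      2 * (px u w ^ 2 + py u w ^ 2) + 2 * (u w * (px (px u) w + py (py u) w)) := by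
  have hd : ∀ w, HasFDerivAt u (fderiv ℝ u w) w := fun w =>
    ((hu.differentiable (by simp)) w).hasFDerivAt
  have h1 : ∀ w a, fderiv ℝ (fun w => u w ^ 2) w a = 2 * (u w * fderiv ℝ u w a) := by
    intro w a
    have h2 := (hd w).mul (hd w)
    have h3 : (fun w => u w ^ 2) = fun w => u w * u w := by
      funext w
      ring
    rw [h3]
    have h4 : fderiv ℝ (fun w => u w * u w) w = u w • fderiv ℝ u w + u w • fderiv ℝ u w :=
      h2.fderiv
    rw [h4]
    simp
    ring
  have key : ∀ (a : ℂ) (p : ℂ → ℝ), ContDiff ℝ ∞ p → (∀ w, p w = fderiv ℝ u w a) →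
      fderiv ℝ (fun w => fderiv ℝ (fun w => u w ^ 2) w a) w a =
        2 * p w ^ 2 + 2 * (u w * fderiv ℝ p w a) := by
    intro a p hp hpa
    have h2 : (fun w => fderiv ℝ (fun w => u w ^ 2) w a) = fun w => 2 * (u w * p w) := by
      funext w
      rw [h1, hpa]
    rw [h2]
    have h3 := ((hd w).mul ((hp.differentiable (by simp)) w).hasFDerivAt).const_mul 2
    have h4 : fderiv ℝ (fun w => 2 * (u w * p w)) w =
        (2 : ℝ) • (u w • fderiv ℝ p w + p w • fderiv ℝ u w) := h3.fderiv
    rw [h4]
    simp only [_root_.smul_apply, _root_.add_apply, smul_eq_mul,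
      ← hpa w]
    ring
  have k1 := key 1 (px u) (px_smooth hu) fun w => rfl
  have k2 := key Complex.I (py u) (py_smooth hu) fun w => rfl
  change fderiv ℝ (fun w => fderiv ℝ (fun w => u w ^ 2) w 1) w 1 +
    fderiv ℝ (fun w => fderiv ℝ (fun w => u w ^ 2) w Complex.I) w Complex.I = _
  rw [k1, k2]
  change 2 * px u w ^ 2 + 2 * (u w * px (px u) w) + (2 * py u w ^ 2 + 2 * (u w * py (py u) w)) = _
  ring

/-- the bound for smooth functions on the plane -/
theorem core {V : ℝ} (hV : 0 ≤ V) {u : ℂ → ℝ} (hu : ContDiff ℝ ∞ u) {z : ℂ} {r : ℝ} (hr : 0 < r)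
    (h : ∀ w ∈ Metric.closedBall z r, |px (px u) w + py (py u) w| ≤ V / r ^ 2 * |u w|) :
    u z ^ 2 * (∫ w, rho w) ≤ Real.exp (V / 3) * (1 / r ^ 2 * ∫ w in Metric.ball z r, u w ^ 2) := by
  obtain ⟨g, hgd⟩ : ∃ g : ℂ → ℝ, g = fun w => u w ^ 2 := ⟨_, rfl⟩
  have hg : ContDiff ℝ ∞ g := by
    rw [hgd]
    exact hu.pow 2
  have hg0 : ∀ w, 0 ≤ g w := fun w => by
    rw [hgd]
    exact sq_nonneg _
  have hgc := hg.continuous
  have hA0 : ∀ t, 0 ≤ Am g z t := fun t =>
    integral_nonneg fun w => mul_nonneg (rho_nonneg w) (hg0 _)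
  -- the differential inequality
  have hlap : ∀ w ∈ Metric.closedBall z r,
      -(2 * V / r ^ 2 * g w) ≤ px (px g) w + py (py g) w := by
    intro w hw
    have h1 := lap_sq hu w
    rw [← hgd] at h1
    rw [h1, hgd]
    have h2 := h w hw
    have h3 : |u w * (px (px u) w + py (py u) w)| ≤ V / r ^ 2 * u w ^ 2 := by
      rw [abs_mul]
      calc |u w| * |px (px u) w + py (py u) w| ≤ |u w| * (V / r ^ 2 * |u w|) :=
            mul_le_mul_of_nonneg_left h2 (abs_nonneg _)
        _ = V / r ^ 2 * |u w| ^ 2 := by ring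
        _ = _ := by rw [sq_abs]
    have h4 := (abs_le.1 h3).1
    have h5 : 0 ≤ px u w ^ 2 + py u w ^ 2 := by positivity
    have h6 : 2 * V / r ^ 2 * u w ^ 2 = 2 * (V / r ^ 2 * u w ^ 2) := by ring
    beta_reduce
    rw [h6]
    linarith
  have hder : ∀ t ∈ Icc 0 r, -(V / (3 * r) * Am g z t) ≤
      t * ∫ w, psi w * (px (px g) (z + t • w) + py (py g) (z + t • w)) := by
    intro t ht
    have c1 : Continuous fun w : ℂ => px (px g) (z + t • w) + py (py g) (z + t • w) :=
      ((px_smooth (px_smooth hg)).continuous.comp (aff_cont z t)).add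
        ((py_smooth (py_smooth hg)).continuous.comp (aff_cont z t))
    have h1 : -(V / (3 * r ^ 2) * Am g z t) ≤
        ∫ w, psi w * (px (px g) (z + t • w) + py (py g) (z + t • w)) := by
      have h2 : -(V / (3 * r ^ 2) * Am g z t) =
          ∫ w, rho w * (-(V / (3 * r ^ 2)) * g (z + t • w)) := by
        unfold Am
        rw [← neg_mul, ← integral_const_mul]
        refine integral_congr_ae (Filter.Eventually.of_forall fun w => ?_)
        beta_reduce
        ring
      rw [h2]
      refine integral_mono (int_rho (continuous_const.mul (hgc.comp (aff_cont z t))))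
        (int_psi c1) fun w => ?_
      beta_reduce
      by_cases hw : 1 ≤ ‖w‖
      · rw [rho_zero hw, psi_zero hw, zero_mul, zero_mul]
      · rw [not_le] at hw
        have h3 : z + t • w ∈ Metric.closedBall z r := by
          rw [Metric.mem_closedBall, dist_eq_norm, add_sub_cancel_left, norm_smul,
            Real.norm_eq_abs, abs_of_nonneg ht.1]
          have h4 : t * ‖w‖ ≤ t * 1 := mul_le_mul_of_nonneg_left hw.le ht.1
          linarith [ht.2]
        have h4 := hlap _ h3
        have h5 := mul_le_mul_of_nonneg_left h4 (psi_nonneg w)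
        refine le_trans ?_ h5
        have h6 : 0 ≤ V / r ^ 2 * g (z + t • w) :=
          mul_nonneg (div_nonneg hV (sq_nonneg r)) (hg0 _)
        have h7 := mul_le_mul_of_nonneg_right (psi_le w) h6
        have h8 : rho w * (-(V / (3 * r ^ 2)) * g (z + t • w)) =
            -(2 * (rho w / 6 * (V / r ^ 2 * g (z + t • w)))) := by
          field_simp
          ring
        have h9 : psi w * -(2 * V / r ^ 2 * g (z + t • w)) =
            -(2 * (psi w * (V / r ^ 2 * g (z + t • w)))) := by
          ring
        rw [h8, h9]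
        linarith
    have h2 := mul_le_mul_of_nonneg_left h1 ht.1
    refine le_trans ?_ h2
    have h3 : t * -(V / (3 * r ^ 2) * Am g z t) = -(t * (V / (3 * r ^ 2) * Am g z t)) := by ring
    rw [h3, neg_le_neg_iff]
    have h4 : 0 ≤ V / (3 * r ^ 2) * Am g z t := mul_nonneg (by positivity) (hA0 t)
    have h5 := mul_le_mul_of_nonneg_right ht.2 h4
    refine h5.trans (le_of_eq ?_)
    field_simp
  -- monotonicity
  have hH : ∀ t, HasDerivAt (fun t => Real.exp (V / (3 * r) * t) * Am g z t)
      (Real.exp (V / (3 * r) * t) * (V / (3 * r)) * Am g z t + Real.exp (V / (3 * r) * t) *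
        (t * ∫ w, psi w * (px (px g) (z + t • w) + py (py g) (z + t • w)))) t := by
    intro t
    have h1 : HasDerivAt (fun t => Real.exp (V / (3 * r) * t))
        (Real.exp (V / (3 * r) * t) * (V / (3 * r))) t := by
      have h2 : HasDerivAt (fun t => V / (3 * r) * t) (V / (3 * r)) t := by
        have := (hasDerivAt_id t).const_mul (V / (3 * r))
        simpa using this
      exact h2.exp
    exact h1.mul (Am_deriv' hg z t)
  have hmono : MonotoneOn (fun t => Real.exp (V / (3 * r) * t) * Am g z t) (Icc 0 r) := by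
    refine monotoneOn_of_deriv_nonneg (convex_Icc 0 r)
      (fun t _ => (hH t).continuousAt.continuousWithinAt)
      (fun t _ => (hH t).differentiableAt.differentiableWithinAt) fun t ht => ?_
    rw [interior_Icc] at ht
    rw [(hH t).deriv, mul_assoc, ← mul_add]
    refine mul_nonneg (Real.exp_pos _).le ?_
    have := hder t ⟨ht.1.le, ht.2.le⟩
    linarith
  have h1 := hmono (left_mem_Icc.2 hr.le) (right_mem_Icc.2 hr.le) hr.le
  beta_reduce at h1
  rw [mul_zero, Real.exp_zero, one_mul, show V / (3 * r) * r = V / 3 by field_simp] at h1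
  -- the value at `0`
  have h2 : Am g z 0 = u z ^ 2 * ∫ w, rho w := by
    unfold Am
    rw [← integral_const_mul]
    refine integral_congr_ae (Filter.Eventually.of_forall fun w => ?_)
    beta_reduce
    rw [zero_smul, add_zero, hgd, mul_comm]
  -- the value at `r`
  have h3 : Am g z r ≤ 1 / r ^ 2 * ∫ w in Metric.ball z r, g w := by
    obtain ⟨F, hF⟩ : ∃ F : ℂ → ℝ, F = (Metric.ball z r).indicator g := ⟨_, rfl⟩
    have hFi : Integrable F := by
      rw [hF, integrable_indicator_iff Metric.isOpen_ball.measurableSet]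
      exact (hgc.continuousOn.integrableOn_compact (isCompact_closedBall z r)).mono_set
        Metric.ball_subset_closedBall
    have hF0 : ∀ w, 0 ≤ F w := fun w => by
      rw [hF]
      exact indicator_nonneg (fun _ _ => hg0 _) w
    have h4 : ∫ w, F (z + r • w) = 1 / r ^ 2 * ∫ w in Metric.ball z r, g w := by
      have h5 := Measure.integral_comp_smul (volume : Measure ℂ) (fun y => F (z + y)) r
      rw [h5, Complex.finrank_real_complex, integral_add_left_eq_self F z, hF,
        integral_indicator Metric.isOpen_ball.measurableSet, smul_eq_mul,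
        abs_of_nonneg (by positivity), one_div]
    rw [← h4]
    refine integral_mono (int_rho (hgc.comp (aff_cont z r))) ?_ fun w => ?_
    · exact (hFi.comp_add_left z).comp_smul hr.ne'
    · beta_reduce
      by_cases hw : 1 ≤ ‖w‖
      · rw [rho_zero hw, zero_mul]
        exact hF0 _
      · rw [not_le] at hw
        have h5 : z + r • w ∈ Metric.ball z r := by
          rw [Metric.mem_ball, dist_eq_norm, add_sub_cancel_left, norm_smul, Real.norm_eq_abs,
            abs_of_pos hr]
          nlinarith
        rw [hF, indicator_of_mem h5]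
        have h6 := mul_le_mul_of_nonneg_right (rho_le w) (hg0 (z + r • w))
        linarith
  rw [h2] at h1
  have h4 := mul_le_mul_of_nonneg_left h3 (Real.exp_pos (V / 3)).le
  rw [hgd] at h4
  exact h1.trans (by rw [hgd] at h1 ⊢; exact h4)

theorem stSup : StSup := by
  intro V hV
  have hc := rho_int_pos
  refine ⟨Real.exp (V / 3) / ∫ w, rho w, div_pos (Real.exp_pos _) hc, fun v z r hr hv h => ?_⟩
  -- a cutoff function
  obtain ⟨χ, hχ⟩ : ∃ χ : ContDiffBump z, χ.rIn = 3 / 2 * r ∧ χ.rOut = 7 / 4 * r :=
    ⟨⟨3 / 2 * r, 7 / 4 * r, by positivity, by linarith⟩, rfl, rfl⟩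
  obtain ⟨u, hud⟩ : ∃ u : ℂ → ℝ, u = fun w => χ w * v w := ⟨_, rfl⟩
  have hu : ContDiff ℝ ∞ u := by
    rw [contDiff_iff_contDiffAt]
    intro w
    by_cases hw : w ∈ Metric.ball z (2 * r)
    · rw [hud]
      exact χ.contDiff.contDiffAt.mul (hv.contDiffAt (Metric.isOpen_ball.mem_nhds hw))
    · have h1 : w ∉ tsupport χ := by
        rw [χ.tsupport_eq, hχ.2, Metric.mem_closedBall]
        rw [Metric.mem_ball] at hw
        linarith
      have h2 : u =ᶠ[𝓝 w] fun _ => (0 : ℝ) := by
        have h3 := notMem_tsupport_iff_eventuallyEq.1 h1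
        filter_upwards [h3] with y hy
        rw [hud]
        beta_reduce
        rw [hy, Pi.zero_apply, zero_mul]
      exact contDiffAt_const.congr_of_eventuallyEq h2
  have huv : ∀ w ∈ Metric.ball z (3 / 2 * r), u w = v w := by
    intro w hw
    rw [hud]
    beta_reduce
    rw [χ.one_of_mem_closedBall (by rw [hχ.1]; exact Metric.ball_subset_closedBall hw), one_mul]
  have hloc : ∀ w ∈ Metric.ball z (3 / 2 * r), u =ᶠ[𝓝 w] v := fun w hw => by
    filter_upwards [Metric.isOpen_ball.mem_nhds hw] with y hy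
    exact huv y hy
  have hsub : Metric.closedBall z r ⊆ Metric.ball z (3 / 2 * r) :=
    Metric.closedBall_subset_ball (by linarith)
  have h1 := core hV hu hr (z := z) (fun w hw => by
    have hw' := hsub hw
    have e1 : px u =ᶠ[𝓝 w] px v := (hloc w hw').fderiv.mono fun y hy => by
      change fderiv ℝ u y 1 = fderiv ℝ v y 1
      rw [hy]
    have e2 : py u =ᶠ[𝓝 w] py v := (hloc w hw').fderiv.mono fun y hy => by
      change fderiv ℝ u y Complex.I = fderiv ℝ v y Complex.I
      rw [hy]
    have e3 : px (px u) w = px (px v) w := by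
      change fderiv ℝ (px u) w 1 = fderiv ℝ (px v) w 1
      rw [e1.fderiv_eq]
    have e4 : py (py u) w = py (py v) w := by
      change fderiv ℝ (py u) w Complex.I = fderiv ℝ (py v) w Complex.I
      rw [e2.fderiv_eq]
    rw [e3, e4, huv w hw']
    refine h w (Metric.ball_subset_ball (by linarith) hw'))
  have h2 : ∫ w in Metric.ball z r, u w ^ 2 = ∫ w in Metric.ball z r, v w ^ 2 := by
    refine setIntegral_congr_fun Metric.isOpen_ball.measurableSet fun w hw => ?_
    rw [huv w (hsub (Metric.ball_subset_closedBall hw))]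
  rw [h2, huv z (Metric.mem_ball_self (by positivity))] at h1
  rw [← le_div_iff₀ hc] at h1
  refine h1.trans (le_of_eq ?_)
  ring

end Pool.Agent.H47.LF
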